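import Pool.Agent.N124.CU.Stm2

set_option autoImplicit false

/-!
# The positions of `b` for `c` near `1` and for a regular position of `c`
-/

namespace Pool.Agent.N413.CU

open Filter Topology Pool.Agent.N124.CU

theorem t_innI : Pool.Agent.N124.CU.S_innI := by
  intro P p c hal hdg hab hc hp
  have hs : Tendsto (fun s : ℂ => s) (𝓝[≠] (0 : ℂ)) (𝓝 0) := tendsto_id.mono_left nhdsWithin_le_nhds
  have hne : ∀ᶠ s in 𝓝[≠] (0 : ℂ), s ≠ 0 := eventually_mem_nhdsWithin
  -- the position of `c` tends to one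
  have hp1 : Tendsto p (𝓝[≠] 0) (𝓝 1) := by
    have h := (hp.mul hs).add_const 1
    rw [mul_zero, zero_add] at h
    refine h.congr' ?_
    filter_upwards [hne] with s h0
    field_simp
    ring
  have hia : Tendsto (fun s => P.ia (p s)) (𝓝[≠] 0) (𝓝 (P.de - P.ga)) := by
    have h := (hp1.const_mul P.de).sub_const P.ga
    rw [mul_one] at h
    exact h
  have hib : Tendsto (fun s => P.ib (p s)) (𝓝[≠] 0) (𝓝 (P.al - P.be)) := by
    have h := ((hp1.const_sub 1).mul hia).add (hp1.const_mul (P.al - P.be))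
    rw [sub_self, zero_mul, zero_add, mul_one] at h
    exact h
  have hics : Tendsto (fun s => P.ic (p s) / s) (𝓝[≠] 0) (𝓝 (-(P.al * c))) := by
    have h := (hp1.const_mul P.al).mul hp
    have h2 := h.neg
    rw [mul_one] at h2
    refine h2.congr' ?_
    filter_upwards [hne] with s h0
    unfold Par.ic
    field_simp
    ring
  have hic : Tendsto (fun s => P.ic (p s)) (𝓝[≠] 0) (𝓝 0) := by
    have h := hics.mul hs
    rw [mul_zero] at h
    refine h.congr' ?_
    filter_upwards [hne] with s h0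
    field_simp
  have hdg' : P.de - P.ga ≠ 0 := sub_ne_zero.mpr hdg
  have hab' : P.al - P.be ≠ 0 := sub_ne_zero.mpr hab
  -- the square root
  have hD : Tendsto (fun s => 1 - 4 * P.ia (p s) * P.ic (p s) / P.ib (p s) ^ 2) (𝓝[≠] 0)
      (𝓝 1) := by
    have h := (((hia.const_mul 4).mul hic).div (hib.pow 2) (pow_ne_zero 2 hab')).const_sub 1
    rw [mul_zero, zero_div, sub_zero] at h
    exact h
  have hrt : ContinuousAt rt 1 := by
    have := rt_contAt_one (X := ℂ) (D := fun z => z) (x₀ := 1) continuousAt_id rfl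
    exact this
  have hθ : Tendsto (fun s => rt (1 - 4 * P.ia (p s) * P.ic (p s) / P.ib (p s) ^ 2)) (𝓝[≠] 0)
      (𝓝 1) := by
    have h := hrt.tendsto.comp hD
    rw [rt_one] at h
    exact h
  set θ : ℂ → ℂ := fun s => rt (1 - 4 * P.ia (p s) * P.ic (p s) / P.ib (p s) ^ 2) with hθdef
  have h1θ : Tendsto (fun s => 1 + θ s) (𝓝[≠] 0) (𝓝 2) := by
    have h := hθ.const_add 1
    rwa [show (1 : ℂ) + 1 = 2 by norm_num] at h
  -- the two roots
  set w1 : ℂ → ℂ := fun s => -(2 * P.ic (p s)) / (P.ib (p s) * (1 + θ s)) with hw1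
  set w2 : ℂ → ℂ := fun s => -(P.ib (p s) * (1 + θ s)) / (2 * P.ia (p s)) with hw2
  have hl : P.al * c / (P.al - P.be) ≠ 0 := div_ne_zero (mul_ne_zero hal hc) hab'
  have l1 : Tendsto (fun s => w1 s / s) (𝓝[≠] 0) (𝓝 (P.al * c / (P.al - P.be))) := by
    have h := (hics.const_mul 2).neg.div (hib.mul h1θ) (mul_ne_zero hab' two_ne_zero)
    have e : -(2 * -(P.al * c)) / ((P.al - P.be) * 2) = P.al * c / (P.al - P.be) := by
      field_simp
    rw [e] at h
    refine h.congr' ?_
    filter_upwards [hne] with s h0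
    simp only [hw1, Pi.div_apply]
    ring
  have l2 : Tendsto w2 (𝓝[≠] 0) (𝓝 ((P.be - P.al) / (P.de - P.ga))) := by
    have h := (hib.mul h1θ).neg.div (hia.const_mul 2) (mul_ne_zero two_ne_zero hdg')
    have e : -((P.al - P.be) * 2) / (2 * (P.de - P.ga)) = (P.be - P.al) / (P.de - P.ga) := by
      field_simp
      ring
    rw [e] at h
    exact h
  have hl2 : (P.be - P.al) / (P.de - P.ga) ≠ 0 := div_ne_zero (sub_ne_zero.mpr hab.symm) hdg'
  refine ⟨![fun s => 1 + w1 s, fun s => 1 + w2 s],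
    ![fun s => P.de + P.al / w1 s, fun s => P.de + P.al / w2 s], ?_, ?_, ?_⟩
  · filter_upwards [hia.eventually_ne hdg', hib.eventually_ne hab', h1θ.eventually_ne two_ne_zero]
      with s ha hb h1 f
    unfold Par.Inner
    rw [QP_split ha hb (θ := θ s) (rt_sq _) h1]
    rfl
  · refine ⟨?_, ?_⟩
    · refine l1.congr fun s => ?_
      simp
    · have h := ((hs.mul_const P.de)).add ((l1.inv₀ hl).const_mul P.al)
      have e : 0 * P.de + P.al * (P.al * c / (P.al - P.be))⁻¹ = (P.al - P.be) / c := by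
        field_simp
        ring
      rw [e] at h
      refine h.congr' ?_
      filter_upwards [hne] with s h0
      simp only [Matrix.cons_val_zero, inv_div]
      ring
  · refine ⟨?_, ?_⟩
    · exact l2.const_add 1
    · exact (tendsto_const_nhds.div l2 hl2).const_add P.de

theorem t_innF : Pool.Agent.N124.CU.S_innF := by
  intro P p p0 hal hia hp0 hp1 hp
  have hne : ∀ᶠ s in 𝓝[≠] (0 : ℂ), s ≠ 0 := eventually_mem_nhdsWithin
  set pp : ℂ → ℂ := Function.update p 0 p0 with hpp
  have hpc : ContinuousAt pp 0 := continuousAt_update_same.mpr hp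
  have hpp0 : pp 0 = p0 := by simp [hpp]
  have hpps : ∀ s, s ≠ 0 → pp s = p s := fun s h => by simp [hpp, h]
  have ha : ContinuousAt (fun s => P.ia (pp s)) 0 := by unfold Par.ia; fun_prop
  have hb : ContinuousAt (fun s => P.ib (pp s)) 0 := by unfold Par.ib; fun_prop
  have hc : ContinuousAt (fun s => P.ic (pp s)) 0 := by unfold Par.ic; fun_prop
  have hD : ContinuousAt (fun s => P.ib (pp s) ^ 2 - 4 * P.ia (pp s) * P.ic (pp s)) 0 := by
    fun_prop
  obtain ⟨sq, hsq, hsq2⟩ := exists_sqrt hD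
  have hia' : P.ia (pp 0) ≠ 0 := by rwa [hpp0]
  have h2a : 2 * P.ia (pp 0) ≠ 0 := mul_ne_zero two_ne_zero hia'
  have hic : P.ic (pp 0) ≠ 0 := by
    rw [hpp0]
    unfold Par.ic
    exact mul_ne_zero (mul_ne_zero hal hp0) (sub_ne_zero.mpr hp1.symm)
  set r1 : ℂ → ℂ := fun s => (-P.ib (pp s) + sq s) / (2 * P.ia (pp s)) with hr1
  set r2 : ℂ → ℂ := fun s => (-P.ib (pp s) - sq s) / (2 * P.ia (pp s)) with hr2
  have c1 : ContinuousAt r1 0 := ContinuousAt.div₀ (by fun_prop) (by fun_prop) h2a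
  have c2 : ContinuousAt r2 0 := ContinuousAt.div₀ (by fun_prop) (by fun_prop) h2a
  have q0 := hsq2 0
  have e1 : P.RI (pp 0) (r1 0) := by
    unfold Par.RI
    simp only [hr1]
    field_simp
    linear_combination q0
  have e2 : P.RI (pp 0) (r2 0) := by
    unfold Par.RI
    simp only [hr2]
    field_simp
    linear_combination q0
  have n1 : r1 0 ≠ 0 := by
    intro h
    unfold Par.RI at e1
    rw [h] at e1
    exact hic (by linear_combination e1)
  have n2 : r2 0 ≠ 0 := by
    intro h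
    unfold Par.RI at e2
    rw [h] at e2
    exact hic (by linear_combination e2)
  rw [hpp0] at e1 e2
  refine ⟨![fun s => 1 + r1 s, fun s => 1 + r2 s],
    ![fun s => P.de + P.al / r1 s, fun s => P.de + P.al / r2 s], ![r1 0, r2 0], ?_, ?_⟩
  · filter_upwards [hne] with s h0 f
    unfold Par.Inner
    rw [← hpps s h0, QP_eq (hsq2 s)]
    rfl
  · have key : ∀ r : ℂ → ℂ, ContinuousAt r 0 → r 0 ≠ 0 →
        Ty .F (fun s => 1 + r s) (fun s => P.de + P.al / r s) (1 + r 0) (P.de + P.al / r 0) := by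
      intro r hr h0
      have h1 : Tendsto r (𝓝[≠] 0) (𝓝 (r 0)) := hr.tendsto.mono_left nhdsWithin_le_nhds
      exact ⟨h1.const_add 1, (tendsto_const_nhds.div h1 h0).const_add P.de⟩
    intro i
    fin_cases i
    · exact ⟨e1, n1, key r1 c1 n1⟩
    · exact ⟨e2, n2, key r2 c2 n2⟩

end Pool.Agent.N413.CU
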